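import Pool.Agent.W788.BK.Stm

/-! BK-ADM: the concrete matrices are admissible. -/

set_option autoImplicit false
set_option linter.unusedSectionVars false

open scoped BigOperators Matrix
open MeasureTheory

namespace Pool.Agent.W790.BK.ADM

open Pool.Agent.W788.MFP.Four Pool.Agent.W788.BK

variable {d L : ℕ} [NeZero L]

/-- Parseval -/
theorem pars (c : T d L → ℂ) : ∑ y, ‖∑ p, c p * e p y‖ ^ 2 = NN d L * ∑ p, ‖c p‖ ^ 2 := by
  have h1 : ∀ y, ((‖∑ p, c p * e p y‖ ^ 2 : ℝ) : ℂ) =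
      ∑ p, ∑ p', c p * (starRingEnd ℂ) (c p') * e y (p - p') := by
    intro y
    have : ((‖∑ p, c p * e p y‖ ^ 2 : ℝ) : ℂ) =
        (∑ p, c p * e p y) * (starRingEnd ℂ) (∑ p, c p * e p y) := by
      rw [Complex.mul_conj, Complex.normSq_eq_norm_sq]
    rw [this, map_sum, Finset.sum_mul_sum]
    refine Finset.sum_congr rfl fun p _ => Finset.sum_congr rfl fun p' _ => ?_
    rw [map_mul, sub_eq_add_neg, e_add, e_neg, e_comm y p, e_comm y p']
    ring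
  have h2 : ((∑ y, ‖∑ p, c p * e p y‖ ^ 2 : ℝ) : ℂ) = ((NN d L * ∑ p, ‖c p‖ ^ 2 : ℝ) : ℂ) := by
    rw [Complex.ofReal_sum, Finset.sum_congr rfl fun y _ => h1 y, Finset.sum_comm]
    have h3 : ∀ p, ∑ y, ∑ p', c p * (starRingEnd ℂ) (c p') * e y (p - p') =
        (NN d L : ℂ) * (c p * (starRingEnd ℂ) (c p)) := by
      intro p
      rw [Finset.sum_comm]
      have h4 : ∀ p', ∑ y, c p * (starRingEnd ℂ) (c p') * e y (p - p') =
          c p * (starRingEnd ℂ) (c p') * (if p - p' = 0 then (NN d L : ℂ) else 0) := by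
        intro p'
        rw [← Finset.mul_sum, sum_e]
      rw [Finset.sum_congr rfl fun p' _ => h4 p', Finset.sum_eq_single p]
      · simp; ring
      · intro p' _ hp'
        rw [if_neg (sub_ne_zero.2 hp'.symm), mul_zero]
      · intro h
        exact absurd (Finset.mem_univ p) h
    rw [Finset.sum_congr rfl fun p _ => h3 p, ← Finset.mul_sum]
    push_cast
    congr 1
    refine Finset.sum_congr rfl fun p _ => ?_
    rw [Complex.mul_conj, Complex.normSq_eq_norm_sq]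
    push_cast
    rfl
  exact_mod_cast h2

theorem cr_neg (q : ZMod L) : cr (-q) = cr q := by
  unfold cr
  rw [ZMod.stdAddChar_apply, ZMod.stdAddChar_apply, AddChar.map_neg_eq_inv]
  simp

theorem low_neg (θ : ℝ) (q : T d L) : Low θ (-q) ↔ Low θ q := by
  unfold Low
  simp only [Pi.neg_apply, cr_neg]

theorem hi_neg (θ : ℝ) (q : T d L) : hi θ (-q) = hi θ q := by
  unfold hi
  by_cases h : Low θ q
  · rw [if_pos h, if_pos ((low_neg θ q).2 h)]
  · rw [if_neg h, if_neg fun h' => h ((low_neg θ q).1 h')]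

theorem hi_nonneg (θ : ℝ) (q : T d L) : 0 ≤ hi θ q := by
  unfold hi; split_ifs <;> norm_num

theorem hi_le (θ : ℝ) (q : T d L) : hi θ q ≤ 1 := by
  unfold hi; split_ifs <;> norm_num

theorem hi_sq (θ : ℝ) (q : T d L) : hi θ q ^ 2 = hi θ q := by
  unfold hi; split_ifs <;> norm_num

theorem JJ_ge (E δ : ℝ) (hδ : 0 < δ) (k : T d L) : δ ≤ JJ E δ k := by
  unfold JJ
  apply Real.le_sqrt_of_sq_le
  nlinarith [sq_nonneg (adj k - E)]

/-- inverse square root of `J` -/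
noncomputable def jj (E δ : ℝ) (k : T d L) : ℝ := (Real.sqrt (JJ E δ k))⁻¹

set_option linter.unusedVariables false in
theorem jj_nonneg (E δ : ℝ) (k : T d L) : 0 ≤ jj E δ k := by
  unfold jj; positivity

theorem jj_sq (E δ : ℝ) (hδ : 0 < δ) (k : T d L) : jj E δ k ^ 2 = (JJ E δ k)⁻¹ := by
  unfold jj
  rw [inv_pow, Real.sq_sqrt (hδ.le.trans (JJ_ge E δ hδ k))]

theorem jj_sq_le (E δ : ℝ) (hδ : 0 < δ) (k : T d L) : jj E δ k ^ 2 ≤ δ⁻¹ := by
  rw [jj_sq E δ hδ]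
  exact inv_anti₀ hδ (JJ_ge E δ hδ k)

theorem jj_mul_le (E δ : ℝ) (hδ : 0 < δ) (k p : T d L) : jj E δ k * jj E δ p ≤ δ⁻¹ := by
  have h1 := jj_sq_le E δ hδ k
  have h2 := jj_sq_le E δ hδ p
  nlinarith [sq_nonneg (jj E δ k - jj E δ p)]

theorem AA_apply (E δ θ : ℝ) (y k p : T d L) : AA E δ θ y k p =
    (((NN d L)⁻¹ * hi θ (k - p) * (jj E δ k * jj E δ p) : ℝ) : ℂ) * e (k - p) y := rfl

theorem norm_e (k x : T d L) : ‖e k x‖ = 1 := by
  have h := e_normSq k x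
  rw [Complex.mul_conj, Complex.normSq_eq_norm_sq] at h
  have h2 : ‖e k x‖ ^ 2 = 1 := by exact_mod_cast h
  nlinarith [norm_nonneg (e k x)]

/-- the triangle inequality -/
theorem tri {n : Type} [Fintype n] (u v : n → ℂ) (a b : ℝ) (ha : 0 ≤ a) (hb : 0 ≤ b)
    (hu : nsq u ≤ a ^ 2) (hv : nsq v ≤ b ^ 2) : nsq (u - v) ≤ (a + b) ^ 2 := by
  have h1 : nsq (u - v) ≤ nsq u + nsq v + 2 * ∑ i, ‖u i‖ * ‖v i‖ := by
    unfold nsq
    rw [Finset.mul_sum, ← Finset.sum_add_distrib, ← Finset.sum_add_distrib]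
    refine Finset.sum_le_sum fun i _ => ?_
    have h := norm_sub_le (u i) (v i)
    rw [Pi.sub_apply]
    nlinarith [norm_nonneg (u i - v i), norm_nonneg (u i), norm_nonneg (v i)]
  have h2 : (∑ i, ‖u i‖ * ‖v i‖) ^ 2 ≤ (a * b) ^ 2 := by
    refine (Finset.sum_mul_sq_le_sq_mul_sq _ _ _).trans ?_
    rw [mul_pow]
    exact mul_le_mul hu hv (Finset.sum_nonneg fun _ _ => by positivity) (by positivity)
  have h3 : ∑ i, ‖u i‖ * ‖v i‖ ≤ a * b := by
    have h4 : 0 ≤ ∑ i, ‖u i‖ * ‖v i‖ := Finset.sum_nonneg fun _ _ => by positivity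
    exact le_of_sq_le_sq h2 (by positivity)
  nlinarith

section parts

variable (E δ θ g Q : ℝ) (hδ : 0 < δ)
include hδ

/-- the main term of the norm bound -/
theorem first (hg : ∑ k : T d L, (JJ E δ k)⁻¹ ≤ g * NN d L) (hg0 : 0 ≤ g) (y : T d L)
    (w : T d L → ℂ) :
    nsq (fun k => (((NN d L)⁻¹ * jj E δ k : ℝ) : ℂ) * e k y *
      ∑ p, (jj E δ p : ℂ) * (starRingEnd ℂ) (e p y) * w p) ≤ g ^ 2 * nsq w := by
  have hN := NN_pos (d := d) (L := L)
  set S : ℂ := ∑ p, (jj E δ p : ℂ) * (starRingEnd ℂ) (e p y) * w p with hS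
  have hj : ∑ p : T d L, jj E δ p ^ 2 ≤ g * NN d L := by
    rw [Finset.sum_congr rfl fun p _ => jj_sq E δ hδ p]; exact hg
  have h1 : ‖S‖ ^ 2 ≤ (g * NN d L) * nsq w := by
    have h2 : ‖S‖ ≤ ∑ p, jj E δ p * ‖w p‖ := by
      rw [hS]
      refine (norm_sum_le _ _).trans (Finset.sum_le_sum fun p _ => ?_)
      rw [norm_mul, norm_mul, RCLike.norm_conj, norm_e, mul_one, Complex.norm_real,
        Real.norm_of_nonneg (jj_nonneg E δ p)]
    calc ‖S‖ ^ 2 ≤ (∑ p, jj E δ p * ‖w p‖) ^ 2 := pow_le_pow_left₀ (norm_nonneg _) h2 2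
      _ ≤ (∑ p, jj E δ p ^ 2) * ∑ p, ‖w p‖ ^ 2 := Finset.sum_mul_sq_le_sq_mul_sq _ _ _
      _ ≤ (g * NN d L) * nsq w := mul_le_mul_of_nonneg_right hj (nsq_nonneg w)
  have h3 : nsq (fun k => (((NN d L)⁻¹ * jj E δ k : ℝ) : ℂ) * e k y * S) =
      ((NN d L)⁻¹ ^ 2 * ∑ k : T d L, jj E δ k ^ 2) * ‖S‖ ^ 2 := by
    unfold nsq
    rw [Finset.mul_sum, Finset.sum_mul]
    refine Finset.sum_congr rfl fun k _ => ?_
    rw [norm_mul, norm_mul, norm_e, mul_one, Complex.norm_real, Real.norm_eq_abs, mul_pow, sq_abs,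
      mul_pow]
  rw [h3]
  have h4 : (NN d L)⁻¹ ^ 2 * ∑ k : T d L, jj E δ k ^ 2 ≤ (NN d L)⁻¹ ^ 2 * (g * NN d L) :=
    mul_le_mul_of_nonneg_left hj (by positivity)
  calc ((NN d L)⁻¹ ^ 2 * ∑ k : T d L, jj E δ k ^ 2) * ‖S‖ ^ 2 ≤
        ((NN d L)⁻¹ ^ 2 * (g * NN d L)) * ((g * NN d L) * nsq w) :=
        mul_le_mul h4 h1 (by positivity) (by positivity)
    _ = g ^ 2 * nsq w := by field_simp

/-- the low frequency term of the norm bound -/
theorem second (y : T d L) (w : T d L → ℂ) :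
    nsq (fun k => ∑ p, (((NN d L)⁻¹ * (1 - hi θ (k - p)) * (jj E δ k * jj E δ p) : ℝ) : ℂ) *
      e (k - p) y * w p) ≤ ((∑ P : T d L, (1 - hi θ P)) / (NN d L * δ)) ^ 2 * nsq w := by
  have hN := NN_pos (d := d) (L := L)
  set H : ℝ := ∑ P : T d L, (1 - hi θ P) with hH
  have hH0 : 0 ≤ H := Finset.sum_nonneg fun P _ => by have := hi_le θ P; linarith
  -- the majorant
  have hmaj : ∀ k p : T d L, ‖(((NN d L)⁻¹ * (1 - hi θ (k - p)) * (jj E δ k * jj E δ p) : ℝ) : ℂ) *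
      e (k - p) y * w p‖ ≤ ((1 - hi θ (k - p)) / (NN d L * δ)) * ‖w p‖ := by
    intro k p
    have h0 : 0 ≤ 1 - hi θ (k - p) := by have := hi_le θ (k - p); linarith
    have h1 := jj_mul_le E δ hδ k p
    have h2 : 0 ≤ jj E δ k * jj E δ p := mul_nonneg (jj_nonneg _ _ _) (jj_nonneg _ _ _)
    rw [norm_mul, norm_mul, norm_e, mul_one, Complex.norm_real, Real.norm_of_nonneg (by positivity)]
    apply mul_le_mul_of_nonneg_right _ (norm_nonneg _)
    calc (NN d L)⁻¹ * (1 - hi θ (k - p)) * (jj E δ k * jj E δ p) ≤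
          (NN d L)⁻¹ * (1 - hi θ (k - p)) * δ⁻¹ := mul_le_mul_of_nonneg_left h1 (by positivity)
      _ = (1 - hi θ (k - p)) / (NN d L * δ) := by field_simp
  have hrow : ∀ k : T d L, ∑ p, (1 - hi θ (k - p)) / (NN d L * δ) = H / (NN d L * δ) := by
    intro k
    rw [← Finset.sum_div, hH]
    congr 1
    exact Equiv.sum_comp (Equiv.subLeft k) fun P => (1 - hi θ P)
  have hcol : ∀ p : T d L, ∑ k, (1 - hi θ (k - p)) / (NN d L * δ) = H / (NN d L * δ) := by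
    intro p
    rw [← Finset.sum_div, hH]
    congr 1
    exact Equiv.sum_comp (Equiv.subRight p) fun P => (1 - hi θ P)
  have hc0 : ∀ k p : T d L, 0 ≤ (1 - hi θ (k - p)) / (NN d L * δ) := by
    intro k p
    have h0 : 0 ≤ 1 - hi θ (k - p) := by have := hi_le θ (k - p); linarith
    positivity
  have hk : ∀ k : T d L, ‖∑ p, (((NN d L)⁻¹ * (1 - hi θ (k - p)) *
      (jj E δ k * jj E δ p) : ℝ) : ℂ) * e (k - p) y * w p‖ ^ 2 ≤
      (H / (NN d L * δ)) * ∑ p, ((1 - hi θ (k - p)) / (NN d L * δ)) * ‖w p‖ ^ 2 := by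
    intro k
    have h1 : ‖∑ p, (((NN d L)⁻¹ * (1 - hi θ (k - p)) *
      (jj E δ k * jj E δ p) : ℝ) : ℂ) * e (k - p) y * w p‖ ≤
        ∑ p, Real.sqrt ((1 - hi θ (k - p)) / (NN d L * δ)) *
          (Real.sqrt ((1 - hi θ (k - p)) / (NN d L * δ)) * ‖w p‖) := by
      refine (norm_sum_le _ _).trans (Finset.sum_le_sum fun p _ => ?_)
      have h5 : Real.sqrt ((1 - hi θ (k - p)) / (NN d L * δ)) *
          (Real.sqrt ((1 - hi θ (k - p)) / (NN d L * δ)) * ‖w p‖) =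
          ((1 - hi θ (k - p)) / (NN d L * δ)) * ‖w p‖ := by
        rw [← mul_assoc, Real.mul_self_sqrt (hc0 k p)]
      rw [h5]
      exact hmaj k p
    refine (pow_le_pow_left₀ (norm_nonneg _) h1 2).trans ?_
    refine (Finset.sum_mul_sq_le_sq_mul_sq _ _ _).trans (le_of_eq ?_)
    rw [← hrow k]
    congr 1
    · refine Finset.sum_congr rfl fun p _ => ?_
      rw [Real.sq_sqrt (hc0 k p)]
    · refine Finset.sum_congr rfl fun p _ => ?_
      rw [mul_pow, Real.sq_sqrt (hc0 k p)]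
  unfold nsq
  refine (Finset.sum_le_sum fun k _ => hk k).trans (le_of_eq ?_)
  rw [← Finset.mul_sum, Finset.sum_comm, pow_two, mul_assoc]
  congr 1
  rw [Finset.mul_sum]
  refine Finset.sum_congr rfl fun p _ => ?_
  rw [← Finset.sum_mul, hcol p]

theorem part_a (hg : ∑ k : T d L, (JJ E δ k)⁻¹ ≤ g * NN d L) (hg0 : 0 ≤ g) (y : T d L)
    (w : T d L → ℂ) :
    nsq (AA E δ θ y *ᵥ w) ≤ (g + (∑ P : T d L, (1 - hi θ P)) / (NN d L * δ)) ^ 2 * nsq w := by
  have hN := NN_pos (d := d) (L := L)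
  set s : ℝ := (∑ P : T d L, (1 - hi θ P)) / (NN d L * δ) with hs
  have hs0 : 0 ≤ s := div_nonneg (Finset.sum_nonneg fun P _ => by have := hi_le θ P; linarith)
    (by positivity)
  have h1 := first E δ g hδ hg hg0 y w
  have h2 := second E δ θ hδ y w
  rw [← hs] at h2
  have hdec : AA E δ θ y *ᵥ w = (fun k => (((NN d L)⁻¹ * jj E δ k : ℝ) : ℂ) * e k y *
      ∑ p, (jj E δ p : ℂ) * (starRingEnd ℂ) (e p y) * w p) -
      (fun k => ∑ p, (((NN d L)⁻¹ * (1 - hi θ (k - p)) * (jj E δ k * jj E δ p) : ℝ) : ℂ) *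
      e (k - p) y * w p) := by
    funext k
    rw [Pi.sub_apply, Finset.mul_sum, ← Finset.sum_sub_distrib]
    unfold Matrix.mulVec dotProduct
    refine Finset.sum_congr rfl fun p _ => ?_
    change AA E δ θ y k p * w p = _
    rw [AA_apply]
    have he : e (k - p) y = e k y * (starRingEnd ℂ) (e p y) := by
      rw [sub_eq_add_neg, e_add_left, e_neg_left]
    rw [he]
    push_cast
    ring
  rw [hdec]
  have hw := nsq_nonneg w
  have h3 := tri _ _ (g * Real.sqrt (nsq w)) (s * Real.sqrt (nsq w)) (by positivity) (by positivity)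
    (by rw [mul_pow, Real.sq_sqrt hw]; exact h1) (by rw [mul_pow, Real.sq_sqrt hw]; exact h2)
  refine h3.trans (le_of_eq ?_)
  rw [← add_mul, mul_pow, Real.sq_sqrt hw]

theorem part_v (hg : ∑ k : T d L, (JJ E δ k)⁻¹ ≤ g * NN d L)
    (w : T d L → ℂ) : ∑ y, nsq (AA E δ θ y *ᵥ w) ≤ g / δ * nsq w := by
  have hN := NN_pos (d := d) (L := L)
  have h1 : ∑ y, nsq (AA E δ θ y *ᵥ w) = ∑ k, ∑ y, ‖(AA E δ θ y *ᵥ w) k‖ ^ 2 := by
    unfold nsq
    rw [Finset.sum_comm]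
  have h2 : ∀ k, ∑ y, ‖(AA E δ θ y *ᵥ w) k‖ ^ 2 = NN d L * ∑ p,
      ‖(((NN d L)⁻¹ * hi θ (k - p) * (jj E δ k * jj E δ p) : ℝ) : ℂ) * w p‖ ^ 2 := by
    intro k
    set c : T d L → ℂ := fun p =>
      (((NN d L)⁻¹ * hi θ (k - p) * (jj E δ k * jj E δ p) : ℝ) : ℂ) * w p with hc
    have h3 := pars (fun q : T d L => c (k - q))
    have h4 : ∀ y, (AA E δ θ y *ᵥ w) k = ∑ q, c (k - q) * e q y := by
      intro y
      rw [← Equiv.sum_comp (Equiv.subLeft k) fun q => c (k - q) * e q y]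
      unfold Matrix.mulVec dotProduct
      refine Finset.sum_congr rfl fun p _ => ?_
      change AA E δ θ y k p * w p = _
      rw [AA_apply, Equiv.subLeft_apply, sub_sub_cancel, hc]
      ring
    rw [Finset.sum_congr rfl fun y _ => by rw [h4 y], h3]
    congr 1
    exact Equiv.sum_comp (Equiv.subLeft k) fun q => ‖c q‖ ^ 2
  rw [h1, Finset.sum_congr rfl fun k _ => h2 k, ← Finset.mul_sum, Finset.sum_comm]
  unfold nsq
  rw [Finset.mul_sum, Finset.mul_sum]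
  refine Finset.sum_le_sum fun p _ => ?_
  have h5 : ∀ k, ‖(((NN d L)⁻¹ * hi θ (k - p) * (jj E δ k * jj E δ p) : ℝ) : ℂ) * w p‖ ^ 2 ≤
      ((NN d L)⁻¹ ^ 2 * δ⁻¹ * ‖w p‖ ^ 2) * (JJ E δ k)⁻¹ := by
    intro k
    rw [norm_mul, mul_pow, Complex.norm_real, Real.norm_eq_abs, sq_abs, mul_pow, mul_pow, mul_pow,
      hi_sq, jj_sq E δ hδ k]
    have h6 := jj_sq_le E δ hδ p
    have h7 := hi_le θ (k - p)
    have h8 := hi_nonneg θ (k - p)
    have h9 : 0 ≤ (JJ E δ k)⁻¹ := inv_nonneg.2 (hδ.le.trans (JJ_ge E δ hδ k))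
    calc (NN d L)⁻¹ ^ 2 * hi θ (k - p) * ((JJ E δ k)⁻¹ * jj E δ p ^ 2) * ‖w p‖ ^ 2 =
          ((NN d L)⁻¹ ^ 2 * (JJ E δ k)⁻¹ * ‖w p‖ ^ 2) * (hi θ (k - p) * jj E δ p ^ 2) := by ring
      _ ≤ ((NN d L)⁻¹ ^ 2 * (JJ E δ k)⁻¹ * ‖w p‖ ^ 2) * (1 * δ⁻¹) := by
          apply mul_le_mul_of_nonneg_left _ (by positivity)
          exact mul_le_mul h7 h6 (by positivity) (by norm_num)
      _ = _ := by ring
  calc NN d L * ∑ k, ‖(((NN d L)⁻¹ * hi θ (k - p) * (jj E δ k * jj E δ p) : ℝ) : ℂ) * w p‖ ^ 2 ≤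
        NN d L * (((NN d L)⁻¹ ^ 2 * δ⁻¹ * ‖w p‖ ^ 2) * (g * NN d L)) := by
        apply mul_le_mul_of_nonneg_left _ hN.le
        refine (Finset.sum_le_sum fun k _ => h5 k).trans ?_
        rw [← Finset.mul_sum]
        exact mul_le_mul_of_nonneg_left hg (by positivity)
    _ = g / δ * ‖w p‖ ^ 2 := by field_simp

theorem part_Q (hQ0 : 0 ≤ Q)
    (hQ : ∀ P : T d L, ¬ Low θ P → ∑ k : T d L, (JJ E δ k * JJ E δ (k + P))⁻¹ ≤ Q * NN d L)
    (W : Matrix (T d L) (T d L) ℂ) : ∑ y, ‖(AA E δ θ y * W).trace‖ ^ 2 ≤ Q * hs W := by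
  have hN := NN_pos (d := d) (L := L)
  set v : T d L → ℂ := fun q => ∑ p, ((jj E δ (p + q) * jj E δ p : ℝ) : ℂ) * W p (p + q) with hv
  have h1 : ∀ y, (AA E δ θ y * W).trace =
      ∑ q, ((((NN d L)⁻¹ * hi θ q : ℝ) : ℂ) * v q) * e q y := by
    intro y
    have h2 : (AA E δ θ y * W).trace = ∑ k, ∑ p, AA E δ θ y k p * W p k := rfl
    rw [h2, Finset.sum_comm]
    have h3 : ∀ p, ∑ k, AA E δ θ y k p * W p k =
        ∑ q, AA E δ θ y (p + q) p * W p (p + q) := by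
      intro p
      exact (Equiv.sum_comp (Equiv.addLeft p) fun k => AA E δ θ y k p * W p k).symm
    rw [Finset.sum_congr rfl fun p _ => h3 p, Finset.sum_comm]
    refine Finset.sum_congr rfl fun q _ => ?_
    rw [hv]
    simp only
    rw [Finset.mul_sum, Finset.sum_mul]
    refine Finset.sum_congr rfl fun p _ => ?_
    rw [AA_apply, add_sub_cancel_left]
    push_cast
    ring
  rw [Finset.sum_congr rfl fun y _ => by rw [h1 y], pars]
  have h4 : ∀ q, ‖(((NN d L)⁻¹ * hi θ q : ℝ) : ℂ) * v q‖ ^ 2 ≤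
      (NN d L)⁻¹ * Q * ∑ p, ‖W p (p + q)‖ ^ 2 := by
    intro q
    rw [norm_mul, mul_pow, Complex.norm_real, Real.norm_eq_abs, sq_abs, mul_pow, hi_sq]
    by_cases hlow : Low θ q
    · have : hi θ q = 0 := by unfold hi; rw [if_pos hlow]
      rw [this]
      simp only [mul_zero, zero_mul]
      exact mul_nonneg (by positivity) (Finset.sum_nonneg fun _ _ => by positivity)
    · have h5 : hi θ q = 1 := by unfold hi; rw [if_neg hlow]
      rw [h5, mul_one]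
      have h6 : ‖v q‖ ≤ ∑ p, (jj E δ (p + q) * jj E δ p) * ‖W p (p + q)‖ := by
        rw [hv]
        refine (norm_sum_le _ _).trans (Finset.sum_le_sum fun p _ => ?_)
        rw [norm_mul, Complex.norm_real,
          Real.norm_of_nonneg (mul_nonneg (jj_nonneg _ _ _) (jj_nonneg _ _ _))]
      have h7 : ∑ p : T d L, (jj E δ (p + q) * jj E δ p) ^ 2 ≤ Q * NN d L := by
        refine le_trans (le_of_eq ?_) (hQ q hlow)
        refine Finset.sum_congr rfl fun p _ => ?_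
        rw [mul_pow, jj_sq E δ hδ, jj_sq E δ hδ, mul_inv, mul_comm]
      have h8 : ‖v q‖ ^ 2 ≤ (Q * NN d L) * ∑ p, ‖W p (p + q)‖ ^ 2 :=
        calc ‖v q‖ ^ 2 ≤ (∑ p, (jj E δ (p + q) * jj E δ p) * ‖W p (p + q)‖) ^ 2 :=
              pow_le_pow_left₀ (norm_nonneg _) h6 2
          _ ≤ _ := Finset.sum_mul_sq_le_sq_mul_sq _ _ _
          _ ≤ _ := mul_le_mul_of_nonneg_right h7 (Finset.sum_nonneg fun _ _ => by positivity)
      calc (NN d L)⁻¹ ^ 2 * ‖v q‖ ^ 2 ≤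
            (NN d L)⁻¹ ^ 2 * ((Q * NN d L) * ∑ p, ‖W p (p + q)‖ ^ 2) :=
            mul_le_mul_of_nonneg_left h8 (by positivity)
        _ = _ := by field_simp
  calc NN d L * ∑ q, ‖(((NN d L)⁻¹ * hi θ q : ℝ) : ℂ) * v q‖ ^ 2 ≤
        NN d L * ∑ q, (NN d L)⁻¹ * Q * ∑ p, ‖W p (p + q)‖ ^ 2 :=
        mul_le_mul_of_nonneg_left (Finset.sum_le_sum fun q _ => h4 q) hN.le
    _ = Q * hs W := by
        rw [← Finset.mul_sum, Finset.sum_comm]
        unfold hs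
        have h9 : ∀ p, ∑ q, ‖W p (p + q)‖ ^ 2 = ∑ q, ‖W p q‖ ^ 2 := fun p =>
          Equiv.sum_comp (Equiv.addLeft p) fun q => ‖W p q‖ ^ 2
        rw [Finset.sum_congr rfl fun p _ => h9 p]
        field_simp

end parts

/-- BK-ADM -/
theorem adm : S_ADM := by
  intro d L _ E δ θ g Q hδ hg0 hQ0 hg hQ
  have hN := NN_pos (d := d) (L := L)
  refine ⟨?_, ?_, ?_, by positivity, hQ0, fun y w => part_a E δ θ g hδ hg hg0 y w,
    fun w => part_v E δ θ g hδ hg w, fun W => part_Q E δ θ Q hδ hQ0 hQ W⟩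
  · unfold D0
    apply Matrix.isHermitian_diagonal_of_self_adjoint
    rw [isSelfAdjoint_iff]
    funext k
    simp
  · intro y
    ext k p
    rw [Matrix.conjTranspose_apply, AA_apply, AA_apply, star_mul', RCLike.star_def,
      Complex.conj_ofReal, ← e_neg_left, neg_sub]
    congr 2
    rw [← hi_neg θ (p - k), neg_sub, mul_comm (jj E δ p)]
  · apply add_nonneg hg0
    exact div_nonneg (Finset.sum_nonneg fun P _ => by have := hi_le θ P; linarith) (by positivity)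

end Pool.Agent.W790.BK.ADM
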