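import Pool.Agent.W622.BK.Stm

/-! Project BK (helper622): expansion of an alternating form in coordinates. -/

set_option autoImplicit false

namespace Pool.Agent.W790.BK

open Module Pool.Agent.W622.BK

universe u

/-- the expansion on basis vectors -/
theorem expand_basis {k : Type u} [Field k] {E : Type u} [AddCommGroup E] [Module k E]
    {N m : ℕ} (b : Basis (Fin N) k E) (ω : E [⋀^Fin m]→ₗ[k] k) (v : Fin m → Fin N)
    (hv : Function.Injective v) :
    ω (fun t => b (v t)) = ∑ I : Fin m ↪o Fin N, ω (fun t => b (I t)) *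
      (Matrix.of fun s t : Fin m => b.coord (I s) (b (v t))).det := by
  classical
  have hS : (Finset.univ.image v).card = m := by
    rw [Finset.card_image_of_injective _ hv, Finset.card_univ, Fintype.card_fin]
  let I₀ : Fin m ↪o Fin N := (Finset.univ.image v).orderEmbOfFin hS
  have hr : ∀ t, ∃ s, I₀ s = v t := by
    intro t
    have h1 : v t ∈ Set.range ((Finset.univ.image v).orderEmbOfFin hS) := by
      rw [Finset.range_orderEmbOfFin]
      exact Finset.mem_coe.2 (Finset.mem_image_of_mem v (Finset.mem_univ t))
    exact h1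
  choose σ₀ hσ₀ using hr
  have hinj : Function.Injective σ₀ := by
    intro s t h
    apply hv
    rw [← hσ₀ s, ← hσ₀ t, h]
  let σ : Equiv.Perm (Fin m) := Equiv.ofBijective σ₀ (Finite.injective_iff_bijective.1 hinj)
  have hσ : ∀ t, I₀ (σ t) = v t := hσ₀
  have hentry : ∀ (i j : Fin N), b.coord i (b j) = if j = i then (1 : k) else 0 := by
    intro i j
    rw [Basis.coord_apply, Basis.repr_self, Finsupp.single_apply]
  rw [Finset.sum_eq_single I₀]
  · have h1 : (fun t => b (v t)) = (fun t => b (I₀ t)) ∘ σ := by
      funext t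
      show b (v t) = b (I₀ (σ t))
      rw [hσ]
    have h2 : (Matrix.of fun s t : Fin m => b.coord (I₀ s) (b (v t))) =
        (1 : Matrix (Fin m) (Fin m) k).submatrix id σ := by
      ext s t
      rw [Matrix.of_apply, hentry, Matrix.submatrix_apply, Matrix.one_apply, ← hσ t, id]
      by_cases h : s = σ t
      · rw [if_pos (by rw [h]), if_pos h]
      · rw [if_neg (fun h' => h (I₀.injective h').symm), if_neg h]
    rw [h1, AlternatingMap.map_perm, h2, Matrix.det_permute', Matrix.det_one, mul_one,
      Units.smul_def, zsmul_eq_mul, mul_comm]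
  · intro I _ hI
    have h1 : ∃ s, I s ∉ Finset.univ.image v := by
      by_contra hcon
      push Not at hcon
      exact hI (Finset.orderEmbOfFin_unique' hS hcon)
    obtain ⟨s, hs⟩ := h1
    rw [Matrix.det_eq_zero_of_row_eq_zero s, mul_zero]
    intro t
    rw [Matrix.of_apply, hentry, if_neg]
    intro h
    exact hs (h ▸ Finset.mem_image_of_mem v (Finset.mem_univ t))
  · intro h
    exact absurd (Finset.mem_univ _) h

theorem sum_app {k : Type u} [Field k] {E : Type u} [AddCommGroup E] [Module k E] {m : ℕ}
    {ι : Type} (s : Finset ι) (f : ι → E [⋀^Fin m]→ₗ[k] k) (w : Fin m → E) :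
    (∑ i ∈ s, f i) w = ∑ i ∈ s, f i w := by
  classical
  induction s using Finset.induction_on with
  | empty => rw [Finset.sum_empty, Finset.sum_empty, AlternatingMap.zero_apply]
  | insert i s hi ih => rw [Finset.sum_insert hi, Finset.sum_insert hi, AlternatingMap.add_apply, ih]

theorem t_NZB : Pool.Agent.W622.BK.S_NZB.{u} := by
  intro k _ E _ _ N m b ω w
  let g : E [⋀^Fin m]→ₗ[k] k := ∑ I : Fin m ↪o Fin N, ω (fun t => b (I t)) •
    (Matrix.detRowAlternating (n := Fin m) (R := k)).compLinearMap
      (LinearMap.pi fun s => b.coord (I s))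
  have hg : ∀ w : Fin m → E, g w = ∑ I : Fin m ↪o Fin N, ω (fun t => b (I t)) *
      (Matrix.of fun s t : Fin m => b.coord (I s) (w t)).det := by
    intro w
    show (∑ I : Fin m ↪o Fin N, ω (fun t => b (I t)) •
      (Matrix.detRowAlternating (n := Fin m) (R := k)).compLinearMap
        (LinearMap.pi fun s => b.coord (I s))) w = _
    rw [sum_app]
    refine Finset.sum_congr rfl fun I _ => ?_
    rw [AlternatingMap.smul_apply, smul_eq_mul, ← Matrix.det_transpose]
    rfl
  have h1 : ω = g := by
    refine Basis.ext_alternating b fun v hv => ?_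
    rw [hg]
    exact expand_basis b ω v hv
  calc ω w = g w := by rw [← h1]
    _ = _ := hg w

end Pool.Agent.W790.BK
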